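import Pool.Agent.W221.NS.Stm2

/-!
# ME-DECT: evolution of the decomposition at one time
-/

set_option autoImplicit false

open MeasureTheory Set Metric Filter Topology
open scoped ContDiff

namespace Pool.Agent.W240.ME

open H459R3.NS W221.NS

/-! ### Derivatives -/

lemma cd_comp {v : V → V} (hv : ContDiff ℝ ∞ v) (i : Fin 3) : ContDiff ℝ ∞ (fun y => v y i) :=
  contDiff_pi.1 hv i

lemma cd_pd {f : V → ℝ} (hf : ContDiff ℝ ∞ f) (j : Fin 3) : ContDiff ℝ ∞ (pd j f) := by
  unfold pd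
  exact (hf.fderiv_right (by simp)).clm_apply contDiff_const

lemma dff {f : V → ℝ} (hf : ContDiff ℝ ∞ f) : Differentiable ℝ f := hf.differentiable (by simp)

lemma pd_add {f g : V → ℝ} (hf : ContDiff ℝ ∞ f) (hg : ContDiff ℝ ∞ g) (j : Fin 3) (x : V) :
    pd j (fun y => f y + g y) x = pd j f x + pd j g x := by
  unfold pd
  rw [fderiv_fun_add (dff hf x) (dff hg x)]
  rfl

lemma pd_sub {f g : V → ℝ} (hf : ContDiff ℝ ∞ f) (hg : ContDiff ℝ ∞ g) (j : Fin 3) (x : V) :
    pd j (fun y => f y - g y) x = pd j f x - pd j g x := by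
  unfold pd
  rw [fderiv_fun_sub (dff hf x) (dff hg x)]
  rfl

lemma pd_neg {f : V → ℝ} (j : Fin 3) (x : V) :
    pd j (fun y => -f y) x = -pd j f x := by
  unfold pd
  rw [fderiv_fun_neg]
  rfl

lemma pd_sum {f : Fin 3 → V → ℝ} (hf : ∀ l, ContDiff ℝ ∞ (f l)) (j : Fin 3) (x : V) :
    pd j (fun y => ∑ l, f l y) x = ∑ l, pd j (f l) x := by
  unfold pd
  rw [fderiv_fun_sum (fun l _ => dff (hf l) x)]
  simp

lemma pd_mul {f g : V → ℝ} (hf : ContDiff ℝ ∞ f) (hg : ContDiff ℝ ∞ g) (j : Fin 3) (x : V) :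
    pd j (fun y => f y * g y) x = f x * pd j g x + pd j f x * g x := by
  unfold pd
  have h : HasFDerivAt (fun y => f y * g y) _ x := (dff hf x).hasFDerivAt.mul (dff hg x).hasFDerivAt
  rw [h.fderiv]
  simp only [add_apply, smul_apply, smul_eq_mul]
  ring

lemma pd_const (c : ℝ) (j : Fin 3) (x : V) : pd j (fun _ : V => c) x = 0 := by
  unfold pd
  simp

lemma pd_congr {f g : V → ℝ} {x : V} (h : f =ᶠ[𝓝 x] g) (j : Fin 3) : pd j f x = pd j g x := by
  unfold pd
  rw [h.fderiv_eq]

lemma pd_congr' {f g : V → ℝ} {U : Set V} (hU : IsOpen U) (h : ∀ y ∈ U, f y = g y) (j : Fin 3) :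
    ∀ y ∈ U, pd j f y = pd j g y := by
  intro y hy
  apply pd_congr
  filter_upwards [hU.mem_nhds hy] with z hz
  exact h z hz

lemma pd_comm {f : V → ℝ} (hf : ContDiff ℝ ∞ f) (i j : Fin 3) (x : V) :
    pd i (pd j f) x = pd j (pd i f) x := by
  have h1 : DifferentiableAt ℝ (fderiv ℝ f) x :=
    (hf.fderiv_right (m := ∞) (by simp)).differentiable (by simp) x
  have h2 : IsSymmSndFDerivAt ℝ f x :=
    (hf.contDiffAt).isSymmSndFDerivAt (by
      simp only [minSmoothness_of_isRCLikeNormedField]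
      exact WithTop.coe_le_coe.mpr le_top)
  have e : ∀ a b : Fin 3, pd a (pd b f) x = fderiv ℝ (fderiv ℝ f) x (Pi.single a 1) (Pi.single b 1) := by
    intro a b
    have h3 : HasFDerivAt (fun y => fderiv ℝ f y (Pi.single b 1))
        ((ContinuousLinearMap.apply ℝ ℝ (Pi.single b (1 : ℝ) : V)).comp (fderiv ℝ (fderiv ℝ f) x)) x :=
      ((ContinuousLinearMap.apply ℝ ℝ (Pi.single b (1 : ℝ) : V)).hasFDerivAt).comp x h1.hasFDerivAt
    show fderiv ℝ (fun y => fderiv ℝ f y (Pi.single b 1)) x (Pi.single a 1) = _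
    rw [h3.fderiv]
    rfl
  rw [e, e]
  exact h2 _ _

lemma cd_sum {f : Fin 3 → V → ℝ} (hf : ∀ l, ContDiff ℝ ∞ (f l)) : ContDiff ℝ ∞ (fun y => ∑ l, f l y) :=
  ContDiff.sum fun l _ => hf l

lemma cd_lap {f : V → ℝ} (hf : ContDiff ℝ ∞ f) : ContDiff ℝ ∞ (lap f) := by
  unfold lap
  exact cd_sum fun l => cd_pd (cd_pd hf l) l

lemma lap_sum {f : Fin 3 → V → ℝ} (hf : ∀ l, ContDiff ℝ ∞ (f l)) (x : V) :
    lap (fun y => ∑ l, f l y) x = ∑ l, lap (f l) x := by
  unfold lap
  rw [Finset.sum_comm]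
  refine Finset.sum_congr rfl fun j _ => ?_
  have : pd j (fun y => ∑ l, f l y) = fun y => ∑ l, pd j (f l) y := by
    funext y; exact pd_sum hf j y
  rw [this, pd_sum (fun l => cd_pd (hf l) j)]

lemma lap_pd {f : V → ℝ} (hf : ContDiff ℝ ∞ f) (j : Fin 3) (x : V) :
    lap (pd j f) x = pd j (lap f) x := by
  unfold lap
  rw [pd_sum (fun l => cd_pd (cd_pd hf l) l)]
  refine Finset.sum_congr rfl fun l _ => ?_
  have : pd l (pd j f) = pd j (pd l f) := by
    funext y; exact pd_comm hf l j y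
  rw [this, pd_comm (cd_pd hf l)]

/-! ### Functions with support in the ball of radius four -/

lemma T4_pd {f : V → ℝ} (h : T4 f) (i : Fin 3) : T4 (pd i f) := by
  refine ⟨cd_pd h.1 i, ?_⟩
  have hc : IsClosed {x : V | H459R3.NS.pd i f x = 0} :=
    isClosed_eq (cd_pd h.1 i).continuous continuous_const
  have hsub : (closedBall (0 : V) 4)ᶜ ⊆ {x : V | H459R3.NS.pd i f x = 0} := by
    intro x hx
    have h1 : f =ᶠ[nhds x] fun _ => 0 := by
      filter_upwards [isClosed_closedBall.isOpen_compl.mem_nhds hx] with y hy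
      exact h.2 y (fun h' => hy (ball_subset_closedBall h'))
    show fderiv ℝ f x (Pi.single i 1) = 0
    rw [h1.fderiv_eq]
    simp
  have h2 := hc.closure_subset_iff.2 hsub
  rw [closure_compl, interior_closedBall (0 : V) (by norm_num)] at h2
  exact fun z hz => h2 hz

lemma T4_sum {f : Fin 3 → V → ℝ} (h : ∀ l, T4 (f l)) : T4 (fun y => ∑ l, f l y) :=
  ⟨cd_sum fun l => (h l).1, fun z hz => Finset.sum_eq_zero fun l _ => (h l).2 z hz⟩

lemma T4_sub {f g : V → ℝ} (hf : T4 f) (hg : T4 g) : T4 (fun y => f y - g y) :=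
  ⟨hf.1.sub hg.1, fun z hz => by
    show f z - g z = 0
    rw [hf.2 z hz, hg.2 z hz, sub_zero]⟩

lemma cd_chi : ContDiff ℝ ∞ (fun y : V => chi y) := chi.contDiff

lemma chi_zero {z : V} (hz : z ∉ ball (0 : V) 4) : chi z = 0 := by
  have h : Function.support (chi : V → ℝ) = ball 0 4 := chi.support_eq
  by_contra h1
  exact hz (h ▸ (show z ∈ Function.support (chi : V → ℝ) from h1))

lemma chi_one {z : V} (hz : z ∈ ball (0 : V) 2) : chi z = 1 :=
  chi.one_of_mem_closedBall (ball_subset_closedBall hz)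

lemma chi_nonneg (z : V) : 0 ≤ chi z := chi.nonneg

lemma chi_le (z : V) : chi z ≤ 1 := chi.le_one

lemma T4_chi {f : V → ℝ} (hf : ContDiff ℝ ∞ f) : T4 (fun y => chi y * f y) :=
  ⟨cd_chi.mul hf, fun z hz => by
    show chi z * f z = 0
    rw [chi_zero hz, zero_mul]⟩

lemma T4_hcs {f : V → ℝ} (h : T4 f) : HasCompactSupport f :=
  HasCompactSupport.intro (isCompact_closedBall (0 : V) 4)
    (fun x hx => h.2 x (fun h' => hx (ball_subset_closedBall h')))

lemma pd_chi {z : V} (hz : z ∈ ball (0 : V) 2) (j : Fin 3) : pd j (fun y : V => chi y) z = 0 := by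
  rw [pd_congr' isOpen_ball (fun y hy => chi_one hy) j z hz, pd_const]

lemma T4_chi0 : T4 (fun y : V => chi y) := ⟨cd_chi, fun _ hz => chi_zero hz⟩

/-! ### The convolution -/

lemma KK_int {g : V → ℝ} (hg : LocallyIntegrable g) {f : V → ℝ} (hf : T4 f) (x : V) :
    Integrable (fun y => g (x - y) * f y) := by
  have h1 : Integrable (fun z => g z • f (x - z)) := by
    apply hg.integrable_smul_right_of_hasCompactSupport
    · exact hf.1.continuous.comp (continuous_const.sub continuous_id)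
    · exact (T4_hcs hf).comp_homeomorph (Homeomorph.subLeft x)
  have h2 := h1.comp_sub_left x
  refine h2.congr (Filter.Eventually.of_forall fun y => ?_)
  simp

lemma KK_sub {g : V → ℝ} (hg : LocallyIntegrable g) {f1 f2 : V → ℝ} (h1 : T4 f1) (h2 : T4 f2) :
    KK g (fun y => f1 y - f2 y) = fun x => KK g f1 x - KK g f2 x := by
  funext x
  unfold KK
  rw [← integral_sub (KK_int hg h1 x) (KK_int hg h2 x)]
  congr 1
  funext y
  ring

lemma KK_sum {g : V → ℝ} (hg : LocallyIntegrable g) {f : Fin 3 → V → ℝ} (h : ∀ l, T4 (f l)) :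
    KK g (fun y => ∑ l, f l y) = fun x => ∑ l, KK g (f l) x := by
  funext x
  unfold KK
  rw [← integral_finsetSum _ (fun l _ => KK_int hg (h l) x)]
  congr 1
  funext y
  rw [Finset.mul_sum]

/-- the curl -/
noncomputable def cur (i j : Fin 3) (F : V → V) (y : V) : ℝ :=
  pd i (fun w => F w j) y - pd j (fun w => F w i) y

lemma TT_eq (g : V → ℝ) (F : V → V) (x : V) (i : Fin 3) :
    TT g F x i = ∑ j, pd j (KK g (fun y => chi y * cur i j F y)) x := rfl

lemma cd_cur {F : V → V} (hF : ContDiff ℝ ∞ F) (i j : Fin 3) : ContDiff ℝ ∞ (cur i j F) :=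
  (cd_pd (cd_comp hF j) i).sub (cd_pd (cd_comp hF i) j)

lemma TT_lin {g : V → ℝ} {C : ℝ} (hG : IsGreen g C) {N : V → V} {A B : Fin 3 → V → V}
    (hA : ∀ l, ContDiff ℝ ∞ (A l)) (hB : ∀ l, ContDiff ℝ ∞ (B l))
    (h : ∀ y ∈ ball (0 : V) 4, ∀ i j,
      cur i j N y = ∑ l, cur i j (A l) y - ∑ l, cur i j (B l) y) (x : V) (i : Fin 3) :
    TT g N x i = ∑ l, TT g (A l) x i - ∑ l, TT g (B l) x i := by
  have key : ∀ j, pd j (KK g (fun y => chi y * cur i j N y)) x =
      ∑ l, pd j (KK g (fun y => chi y * cur i j (A l) y)) x -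
        ∑ l, pd j (KK g (fun y => chi y * cur i j (B l) y)) x := by
    intro j
    have hA' : ∀ l, T4 (fun y => chi y * cur i j (A l) y) := fun l => T4_chi (cd_cur (hA l) i j)
    have hB' : ∀ l, T4 (fun y => chi y * cur i j (B l) y) := fun l => T4_chi (cd_cur (hB l) i j)
    have e : (fun y => chi y * cur i j N y) = fun y =>
        (∑ l, chi y * cur i j (A l) y) - ∑ l, chi y * cur i j (B l) y := by
      funext y
      by_cases hy : y ∈ ball (0 : V) 4
      · rw [h y hy i j, mul_sub, Finset.mul_sum, Finset.mul_sum]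
      · rw [chi_zero hy]
        simp
    rw [e, KK_sub hG.loc (T4_sum hA') (T4_sum hB'), KK_sum hG.loc hA', KK_sum hG.loc hB',
      pd_sub (cd_sum fun l => hG.smooth _ (hA' l)) (cd_sum fun l => hG.smooth _ (hB' l)),
      pd_sum (fun l => hG.smooth _ (hA' l)), pd_sum (fun l => hG.smooth _ (hB' l))]
  rw [TT_eq, Finset.sum_congr rfl fun j _ => key j, Finset.sum_sub_distrib, Finset.sum_comm,
    Finset.sum_comm (f := fun j l => pd j (KK g (fun y => chi y * cur i j (B l) y)) x)]
  rfl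

/-! ### Norms -/

lemma iob {f : V → ℝ} (hf : Continuous f) (a : V) (ρ : ℝ) : IntegrableOn f (ball a ρ) :=
  (hf.continuousOn.integrableOn_compact (isCompact_closedBall a ρ)).mono_set ball_subset_closedBall

lemma int_T4 {f : V → ℝ} (h : ∀ z ∉ ball (0 : V) 4, f z = 0) :
    ∫ x, f x = ∫ x in ball (0 : V) 4, f x :=
  (setIntegral_eq_integral_of_forall_compl_eq_zero fun x hx => h x hx).symm

lemma cd_f {v : V → V} (hv : ContDiff ℝ ∞ v) (l : Fin 3) :
    ContDiff ℝ ∞ (fun (w : V) (j : Fin 3) => pd l (fun u => v u j) w) :=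
  contDiff_pi.2 fun j => cd_pd (cd_comp hv j) l

lemma cd_k {v : V → V} (hv : ContDiff ℝ ∞ v) (l : Fin 3) :
    ContDiff ℝ ∞ (fun (w : V) (j : Fin 3) => v w l * v w j) :=
  contDiff_pi.2 fun j => (cd_comp hv l).mul (cd_comp hv j)

lemma cd_D {f : V → V} (hf : ContDiff ℝ ∞ f) (l : Fin 3) :
    ContDiff ℝ ∞ (fun (w : V) (j : Fin 3) => pd l (fun u => f u j) w) := cd_f hf l

lemma cont_nsq {v : V → V} (hv : ContDiff ℝ ∞ v) : Continuous (nsq v) := by
  unfold nsq
  exact continuous_finsetSum _ (fun i _ => (cd_comp hv i).continuous.pow 2)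

lemma cont_gsq {v : V → V} (hv : ContDiff ℝ ∞ v) : Continuous (gsq v) := by
  unfold gsq
  exact continuous_finsetSum _ (fun i _ => continuous_finsetSum _
    (fun j _ => (cd_pd (cd_comp hv i) j).continuous.pow 2))

lemma A2_f {v : V → V} (hv : ContDiff ℝ ∞ v) (l : Fin 3) :
    A2 0 4 (fun (w : V) (j : Fin 3) => pd l (fun u => v u j) w) ≤ B2 0 4 v := by
  unfold A2 B2
  apply setIntegral_mono (iob (cont_nsq (cd_f hv l)) _ _) (iob (cont_gsq hv) _ _)
  intro x
  unfold nsq gsq
  apply Finset.sum_le_sum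
  intro i _
  exact Finset.single_le_sum (f := fun j => pd j (fun y => v y i) x ^ 2)
    (fun _ _ => sq_nonneg _) (Finset.mem_univ l)

lemma sq_le_nsq (v : V → V) (x : V) (l : Fin 3) : v x l ^ 2 ≤ nsq v x :=
  Finset.single_le_sum (f := fun i => v x i ^ 2) (fun _ _ => sq_nonneg _) (Finset.mem_univ l)

lemma nsq_nonneg (v : V → V) (z : V) : 0 ≤ nsq v z :=
  Finset.sum_nonneg (fun _ _ => sq_nonneg _)

lemma A2_k {v : V → V} (hv : ContDiff ℝ ∞ v) (l : Fin 3) :
    A2 0 4 (fun (w : V) (j : Fin 3) => v w l * v w j) ≤ L4 0 4 v := by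
  unfold A2 L4
  apply setIntegral_mono (iob (cont_nsq (cd_k hv l)) _ _) (iob ((cont_nsq hv).pow 2) _ _)
  intro x
  have e : nsq (fun (w : V) (j : Fin 3) => v w l * v w j) x = v x l ^ 2 * nsq v x := by
    unfold nsq
    rw [Finset.mul_sum]
    exact Finset.sum_congr rfl fun j _ => by ring
  show nsq (fun (w : V) (j : Fin 3) => v w l * v w j) x ≤ nsq v x ^ 2
  rw [e, sq (nsq v x)]
  exact mul_le_mul_of_nonneg_right (sq_le_nsq v x l) (nsq_nonneg v x)

lemma exists_bound : ∃ M : ℝ, 0 < M ∧ ∀ j z, |pd j (fun y : V => chi y) z| ≤ M := by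
  have h : ∀ j : Fin 3, ∃ M : ℝ, ∀ z, |pd j (fun y : V => chi y) z| ≤ M := by
    intro j
    have hT := T4_pd T4_chi0 j
    obtain ⟨M, hM⟩ := hT.1.continuous.bounded_above_of_compact_support (T4_hcs hT)
    exact ⟨M, fun z => hM z⟩
  choose M hM using h
  have hM0 : ∀ j, 0 ≤ M j := fun j => (abs_nonneg _).trans (hM j 0)
  refine ⟨∑ j, M j + 1, by have := Finset.sum_nonneg fun j (_ : j ∈ Finset.univ) => hM0 j; linarith, fun j z => ?_⟩
  have := Finset.single_le_sum (f := M) (fun j _ => hM0 j) (Finset.mem_univ j)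
  linarith [hM j z]

/-- the divergence of the cut-off gradient -/
lemma D_eq {v : V → V} (hv : ContDiff ℝ ∞ v) (hd : ∀ x ∈ ball (0 : V) 8, dv v x = 0) (l : Fin 3) (y : V) :
    ∑ j, pd j (fun w => chi w * pd l (fun u => v u j) w) y =
      ∑ j, pd j (fun w : V => chi w) y * pd l (fun u => v u j) y := by
  by_cases hy : y ∈ ball (0 : V) 8
  · have e1 : ∀ j, pd j (fun w => chi w * pd l (fun u => v u j) w) y =
        chi y * pd l (pd j (fun u => v u j)) y + pd j (fun w : V => chi w) y * pd l (fun u => v u j) y := by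
      intro j
      rw [pd_mul cd_chi (cd_pd (cd_comp hv j) l), pd_comm (cd_comp hv j)]
    rw [Finset.sum_congr rfl fun j _ => e1 j, Finset.sum_add_distrib, ← Finset.mul_sum,
      ← pd_sum (fun j => cd_pd (cd_comp hv j) j)]
    have e2 : pd l (fun y => ∑ j, pd j (fun u => v u j) y) y = 0 := by
      have h1 := pd_congr' (f := fun y => ∑ j, pd j (fun u => v u j) y) isOpen_ball (g := fun _ => 0)
        (fun z hz => hd z hz) l y hy
      rw [h1, pd_const]
    rw [e2, mul_zero, zero_add]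
  · have hy4 : y ∉ ball (0 : V) 4 := fun h => hy (ball_subset_ball (by norm_num) h)
    rw [Finset.sum_eq_zero, Finset.sum_eq_zero]
    · intro j _
      rw [(T4_pd T4_chi0 j).2 y hy4, zero_mul]
    · intro j _
      exact (T4_pd (T4_chi (cd_pd (cd_comp hv j) l)) j).2 y hy4

/-- the harmonic part -/
lemma harm {g : V → ℝ} {C : ℝ} (hG : IsGreen g C) (hA : S_HARM) : ∃ K : ℝ, 0 < K ∧
    ∀ v : V → V, ContDiff ℝ ∞ v → (∀ x ∈ ball (0 : V) 8, dv v x = 0) → ∀ (l i : Fin 3),
      ∀ z ∈ ball (0 : V) 1,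
        |pd i (pd l (KK g (fun y => ∑ j, pd j (fun w => chi w * pd l (fun u => v u j) w) y))) z|
          ≤ K * √(B2 0 4 v) := by
  obtain ⟨C2, hC2, hH⟩ := hA
  obtain ⟨M, hM, hMb⟩ := exists_bound
  refine ⟨√(C2 * (2 ^ 5)⁻¹ * (|C| * (3 * M ^ 2))) + 1, by positivity, ?_⟩
  intro v hv hd l i z hz
  obtain ⟨D, hD⟩ : ∃ D : V → ℝ, D = fun y => ∑ j, pd j (fun w => chi w * pd l (fun u => v u j) w) y := ⟨_, rfl⟩
  have hDT : T4 D := by
    rw [hD]
    exact T4_sum fun j => T4_pd (T4_chi (cd_pd (cd_comp hv j) l)) j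
  have hDe : ∀ y, D y = ∑ j, pd j (fun w : V => chi w) y * pd l (fun u => v u j) y := by
    intro y
    rw [hD]
    exact D_eq hv hd l y
  rw [← hD]
  have hK := hG.smooth D hDT
  have hD0 : ∀ y ∈ ball (0 : V) 2, D y = 0 := by
    intro y hy
    rw [hDe]
    exact Finset.sum_eq_zero fun j _ => by rw [pd_chi hy, zero_mul]
  have hlap : ∀ x ∈ ball (0 : V) 2, lap (pd l (KK g D)) x = 0 := by
    intro x hx
    rw [lap_pd hK]
    have e : ∀ y ∈ ball (0 : V) 2, lap (KK g D) y = (∫ w, D w) / 16 ^ 3 := by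
      intro y hy
      have := hG.eqn D hDT y (ball_subset_ball (by norm_num) hy)
      rw [hD0 y hy] at this
      linarith
    rw [pd_congr' isOpen_ball e l x hx, pd_const]
  have h1 := (hH (pd l (KK g D)) (cd_pd hK l) 0 2 (by norm_num) hlap z (by norm_num; simpa using hz) i).1
  have h2 : ∫ x in ball (0 : V) 2, pd l (KK g D) x ^ 2 ≤ ∫ x in ball (0 : V) 8, pd l (KK g D) x ^ 2 := by
    apply setIntegral_mono_set (iob ((cd_pd hK l).continuous.pow 2) _ _)
    · exact Filter.Eventually.of_forall fun x => sq_nonneg _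
    · exact (ball_subset_ball (by norm_num)).eventuallyLE
  have h3 := hG.n1 D hDT l
  have h4 : ∫ x, D x ^ 2 ≤ 3 * M ^ 2 * B2 0 4 v := by
    rw [int_T4 (fun z hz => by rw [hDT.2 z hz]; norm_num)]
    have h5 : ∫ x in ball (0 : V) 4, D x ^ 2 ≤ ∫ x in ball (0 : V) 4, 3 * M ^ 2 *
        nsq (fun (w : V) (j : Fin 3) => pd l (fun u => v u j) w) x := by
      apply setIntegral_mono (iob (hDT.1.continuous.pow 2) _ _)
        (iob (continuous_const.mul (cont_nsq (cd_f hv l))) _ _)
      intro x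
      show D x ^ 2 ≤ 3 * M ^ 2 * nsq (fun (w : V) (j : Fin 3) => pd l (fun u => v u j) w) x
      rw [hDe]
      have h6 := sq_sum_le_card_mul_sum_sq (s := (Finset.univ : Finset (Fin 3)))
        (f := fun j => pd j (fun w : V => chi w) x * pd l (fun u => v u j) x)
      simp only [Finset.card_univ, Fintype.card_fin] at h6
      refine h6.trans ?_
      unfold nsq
      rw [Finset.mul_sum, Finset.mul_sum]
      push_cast
      apply Finset.sum_le_sum
      intro j _
      have h7 : pd j (fun w : V => chi w) x ^ 2 ≤ M ^ 2 := by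
        rw [← sq_abs]
        exact pow_le_pow_left₀ (abs_nonneg _) (hMb j x) 2
      rw [mul_pow, mul_assoc]
      have h8 := sq_nonneg (pd l (fun u => v u j) x)
      have h9 := mul_le_mul_of_nonneg_right h7 h8
      linarith
    refine h5.trans ?_
    rw [integral_const_mul]
    have := A2_f hv l
    unfold A2 at this
    apply mul_le_mul_of_nonneg_left this (by positivity)
  have hB : 0 ≤ B2 0 4 v := by
    unfold B2
    exact setIntegral_nonneg measurableSet_ball fun x _ => Finset.sum_nonneg fun _ _ =>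
      Finset.sum_nonneg fun _ _ => sq_nonneg _
  have h5 : C * ∫ x, D x ^ 2 ≤ |C| * (3 * M ^ 2 * B2 0 4 v) := by
    have h6 : 0 ≤ ∫ x, D x ^ 2 := integral_nonneg fun _ => sq_nonneg _
    calc C * ∫ x, D x ^ 2 ≤ |C| * ∫ x, D x ^ 2 := mul_le_mul_of_nonneg_right (le_abs_self C) h6
      _ ≤ _ := mul_le_mul_of_nonneg_left h4 (abs_nonneg C)
  have h6 : pd i (pd l (KK g D)) z ^ 2 ≤ (C2 * (2 ^ 5)⁻¹ * (|C| * (3 * M ^ 2))) * B2 0 4 v := by
    refine h1.trans ?_
    have : C2 * (2 ^ 5)⁻¹ * ∫ x in ball (0 : V) 2, pd l (KK g D) x ^ 2 ≤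
        C2 * (2 ^ 5)⁻¹ * (|C| * (3 * M ^ 2 * B2 0 4 v)) :=
      mul_le_mul_of_nonneg_left (h2.trans (h3.trans h5)) (by positivity)
    refine this.trans (le_of_eq ?_)
    ring
  have h7 := Real.abs_le_sqrt h6
  rw [Real.sqrt_mul' _ hB] at h7
  have := Real.sqrt_nonneg (B2 0 4 v)
  linarith

/-- the local pressure -/
lemma press {g : V → ℝ} {C : ℝ} (hG : IsGreen g C) {v : V → V} (hv : ContDiff ℝ ∞ v)
    {P : V → ℝ} (hP : P = fun x => ∑ l, pd l (KK g (fun y => ∑ j, pd j (fun w => chi w * (v w l * v w j)) y)) x) :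
    ContDiff ℝ ∞ P ∧ (∀ x ∈ ball (0 : V) 1, -lap P x = ddq v x) ∧
      ∫ x in ball (0 : V) 1, P x ^ 2 ≤ 81 * |C| * L4 0 4 v := by
  have hF : ∀ l j, T4 (fun w => chi w * (v w l * v w j)) := fun l j =>
    T4_chi ((cd_comp hv l).mul (cd_comp hv j))
  obtain ⟨E, hE⟩ : ∃ E : Fin 3 → V → ℝ, E = fun l y => ∑ j, pd j (fun w => chi w * (v w l * v w j)) y := ⟨_, rfl⟩
  have hET : ∀ l, T4 (E l) := by
    intro l
    rw [hE]
    exact T4_sum fun j => T4_pd (hF l j) j
  have hP' : P = fun x => ∑ l, pd l (KK g (E l)) x := by rw [hP, hE]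
  have hKE : ∀ l, ContDiff ℝ ∞ (KK g (E l)) := fun l => hG.smooth _ (hET l)
  have hPs : ContDiff ℝ ∞ P := by
    rw [hP']
    exact cd_sum fun l => cd_pd (hKE l) l
  refine ⟨hPs, ?_, ?_⟩
  · intro x hx
    have hx2 : x ∈ ball (0 : V) 2 := ball_subset_ball (by norm_num) hx
    rw [hP', lap_sum (fun l => cd_pd (hKE l) l), ← Finset.sum_neg_distrib]
    unfold ddq
    refine Finset.sum_congr rfl fun l _ => ?_
    rw [lap_pd (hKE l)]
    have e : ∀ y ∈ ball (0 : V) 2, lap (KK g (E l)) y =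
        (∫ w, E l w) / 16 ^ 3 - ∑ j, pd j (fun w => v w l * v w j) y := by
      intro y hy
      have h1 := hG.eqn (E l) (hET l) y (ball_subset_ball (by norm_num) hy)
      have h2 : E l y = ∑ j, pd j (fun w => v w l * v w j) y := by
        rw [hE]
        refine Finset.sum_congr rfl fun j _ => ?_
        exact pd_congr' isOpen_ball (fun w hw => by rw [chi_one hw, one_mul]) j y hy
      rw [← h2]
      linarith
    rw [pd_congr' isOpen_ball e l x hx2,
      pd_sub contDiff_const (cd_sum fun j => cd_pd ((cd_comp hv l).mul (cd_comp hv j)) j), pd_const,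
      pd_sum (fun j => cd_pd ((cd_comp hv l).mul (cd_comp hv j)) j)]
    ring
  · have e1 : ∀ l, KK g (E l) = fun x => ∑ j, pd j (KK g (fun w => chi w * (v w l * v w j))) x := by
      intro l
      rw [hE, KK_sum hG.loc fun j => T4_pd (hF l j) j]
      funext x
      refine Finset.sum_congr rfl fun j _ => ?_
      exact (congrFun (hG.pdK _ (hF l j) j) x).symm
    have e2 : ∀ x, P x = ∑ l, ∑ j, pd l (pd j (KK g (fun w => chi w * (v w l * v w j)))) x := by
      intro x
      rw [hP']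
      refine Finset.sum_congr rfl fun l _ => ?_
      rw [e1 l, pd_sum (fun j => cd_pd (hG.smooth _ (hF l j)) j)]
    have hL : 0 ≤ L4 0 4 v := by
      unfold L4
      exact setIntegral_nonneg measurableSet_ball fun x _ => sq_nonneg _
    have hcs : ∀ l j, Continuous (fun x => pd l (pd j (KK g (fun w => chi w * (v w l * v w j)))) x ^ 2) :=
      fun l j => (cd_pd (cd_pd (hG.smooth _ (hF l j)) j) l).continuous.pow 2
    have hc9 : ∀ l j, Continuous
        (fun x => 9 * pd l (pd j (KK g (fun w => chi w * (v w l * v w j)))) x ^ 2) :=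
      fun l j => continuous_const.mul (hcs l j)
    have h1 : ∀ x, P x ^ 2 ≤ ∑ l, ∑ j, 9 * pd l (pd j (KK g (fun w => chi w * (v w l * v w j)))) x ^ 2 := by
      intro x
      rw [e2 x]
      have h6 := sq_sum_le_card_mul_sum_sq (s := (Finset.univ : Finset (Fin 3)))
        (f := fun l => ∑ j, pd l (pd j (KK g (fun w => chi w * (v w l * v w j)))) x)
      simp only [Finset.card_univ, Fintype.card_fin] at h6
      refine h6.trans ?_
      rw [Finset.mul_sum]
      apply Finset.sum_le_sum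
      intro l _
      have h7 := sq_sum_le_card_mul_sum_sq (s := (Finset.univ : Finset (Fin 3)))
        (f := fun j => pd l (pd j (KK g (fun w => chi w * (v w l * v w j)))) x)
      simp only [Finset.card_univ, Fintype.card_fin] at h7
      rw [← Finset.mul_sum]
      push_cast at h7 ⊢
      linarith
    have h2 : ∫ x in ball (0 : V) 8, P x ^ 2 ≤ 81 * |C| * L4 0 4 v := by
      have h3 : ∫ x in ball (0 : V) 8, P x ^ 2 ≤ ∫ x in ball (0 : V) 8,
          ∑ l, ∑ j, 9 * pd l (pd j (KK g (fun w => chi w * (v w l * v w j)))) x ^ 2 := by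
        apply setIntegral_mono (iob (hPs.continuous.pow 2) _ _) _ h1
        apply iob
        exact continuous_finsetSum _ fun l _ => continuous_finsetSum _ fun j _ => hc9 l j
      refine h3.trans ?_
      rw [integral_finsetSum _ fun l _ => iob (continuous_finsetSum _ fun j _ => hc9 l j) _ _]
      have h4 : ∀ l, ∫ x in ball (0 : V) 8,
          ∑ j, 9 * pd l (pd j (KK g (fun w => chi w * (v w l * v w j)))) x ^ 2 ≤
          27 * |C| * L4 0 4 v := by
        intro l
        rw [integral_finsetSum _ fun j _ => iob (hc9 l j) _ _]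
        have h5 : ∀ j, ∫ x in ball (0 : V) 8,
            9 * pd l (pd j (KK g (fun w => chi w * (v w l * v w j)))) x ^ 2 ≤ 9 * |C| * L4 0 4 v := by
          intro j
          rw [integral_const_mul]
          have h6 := hG.n2 _ (hF l j) l j
          have h7 : ∫ x, (chi x * (v x l * v x j)) ^ 2 ≤ L4 0 4 v := by
            rw [int_T4 (fun z hz => by rw [chi_zero hz]; norm_num)]
            unfold L4
            apply setIntegral_mono (iob ((hF l j).1.continuous.pow 2) _ _)
              (iob ((cont_nsq hv).pow 2) _ _)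
            intro x
            show (chi x * (v x l * v x j)) ^ 2 ≤ nsq v x ^ 2
            have a1 := sq_le_nsq v x l
            have a2 := sq_le_nsq v x j
            have a3 := chi_nonneg x
            have a4 := chi_le x
            have a5 : (chi x) ^ 2 ≤ 1 := by nlinarith
            calc (chi x * (v x l * v x j)) ^ 2 = (chi x) ^ 2 * (v x l ^ 2 * v x j ^ 2) := by ring
              _ ≤ 1 * (v x l ^ 2 * v x j ^ 2) := mul_le_mul_of_nonneg_right a5 (by positivity)
              _ = v x l ^ 2 * v x j ^ 2 := one_mul _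
              _ ≤ nsq v x * nsq v x := mul_le_mul a1 a2 (sq_nonneg _) (nsq_nonneg v x)
              _ = nsq v x ^ 2 := by ring
          have h8 : 0 ≤ ∫ x, (chi x * (v x l * v x j)) ^ 2 := integral_nonneg fun _ => sq_nonneg _
          have h9 : C * ∫ x, (chi x * (v x l * v x j)) ^ 2 ≤ |C| * L4 0 4 v :=
            (mul_le_mul_of_nonneg_right (le_abs_self C) h8).trans
              (mul_le_mul_of_nonneg_left h7 (abs_nonneg C))
          have h10 := h6.trans h9
          linarith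
        refine (Finset.sum_le_sum fun j _ => h5 j).trans (le_of_eq ?_)
        simp
        ring
      refine (Finset.sum_le_sum fun l _ => h4 l).trans (le_of_eq ?_)
      simp
      ring
    refine le_trans ?_ h2
    apply setIntegral_mono_set (iob (hPs.continuous.pow 2) _ _)
    · exact Filter.Eventually.of_forall fun x => sq_nonneg _
    · exact (ball_subset_ball (by norm_num)).eventuallyLE

/-- Part DECT -/
theorem t_DECT (h : S_TD) (hA : S_HARM) : S_DECT := by
  intro g C hG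
  obtain ⟨C1, hC1, hTD⟩ := h g C hG
  obtain ⟨K, hK, hharm⟩ := harm hG hA
  refine ⟨3 * K + 3 * C1 + 81 * |C| + 1, by positivity, ?_⟩
  intro v N q hv hN hq hd heq
  obtain ⟨P, hP⟩ : ∃ P : V → ℝ, P = fun x => ∑ l, pd l (KK g (fun y =>
    ∑ j, pd j (fun w => chi w * (v w l * v w j)) y)) x := ⟨_, rfl⟩
  obtain ⟨hP1, hP2, hP3⟩ := press hG hv hP
  have hL : 0 ≤ L4 0 4 v := by
    unfold L4
    exact setIntegral_nonneg measurableSet_ball fun x _ => sq_nonneg _
  refine ⟨P, hP1, hP2, hP3.trans (mul_le_mul_of_nonneg_right (by linarith) hL), ?_⟩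
  -- the two families
  choose H1 hH1s hH1 hH1b using fun l : Fin 3 =>
    hTD (fun (w : V) (j : Fin 3) => pd l (fun u => v u j) w) l (cd_f hv l)
  choose H2 hH2s hH2 hH2b using fun l : Fin 3 =>
    hTD (fun (w : V) (j : Fin 3) => v w l * v w j) l (cd_k hv l)
  -- the nonlinear term
  have hadv : ∀ x ∈ ball (0 : V) 8, ∀ i, adv v (fun y => v y i) x = ∑ l, pd l (fun w => v w l * v w i) x := by
    intro x hx i
    have e : ∀ l, pd l (fun w => v w l * v w i) x = v x l * pd l (fun w => v w i) x +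
        pd l (fun w => v w l) x * v x i := fun l => pd_mul (cd_comp hv l) (cd_comp hv i) l x
    rw [Finset.sum_congr rfl fun l _ => e l, Finset.sum_add_distrib, ← Finset.sum_mul]
    have h1 : ∑ l, pd l (fun w => v w l) x = 0 := hd x hx
    rw [h1, zero_mul, add_zero]
    rfl
  have hNe : ∀ x ∈ ball (0 : V) 8, ∀ i, N x i =
      (∑ l, pd l (fun w => pd l (fun u => v u i) w) x) - (∑ l, pd l (fun w => v w l * v w i) x) - pd i q x := by
    intro x hx i
    have h1 := heq x hx i
    rw [hadv x hx i] at h1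
    have h2 : lap (fun y => v y i) x = ∑ l, pd l (fun w => pd l (fun u => v u i) w) x := rfl
    rw [h2] at h1
    linarith
  have hcA : ∀ l, ContDiff ℝ ∞ (fun (y : V) (i : Fin 3) => pd l (fun w => pd l (fun u => v u i) w) y) :=
    fun l => cd_D (cd_f hv l) l
  have hcB : ∀ l, ContDiff ℝ ∞ (fun (y : V) (i : Fin 3) => pd l (fun w => v w l * v w i) y) :=
    fun l => cd_D (cd_k hv l) l
  have hcur : ∀ y ∈ ball (0 : V) 4, ∀ i j, cur i j N y =
      ∑ l, cur i j (fun (y : V) (i : Fin 3) => pd l (fun w => pd l (fun u => v u i) w) y) y -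
      ∑ l, cur i j (fun (y : V) (i : Fin 3) => pd l (fun w => v w l * v w i) y) y := by
    intro y hy i j
    have hy8 : y ∈ ball (0 : V) 8 := ball_subset_ball (by norm_num) hy
    have e : ∀ a b : Fin 3, pd a (fun w => N w b) y =
        (∑ l, pd a (fun y => pd l (fun w => pd l (fun u => v u b) w) y) y) -
        (∑ l, pd a (fun y => pd l (fun w => v w l * v w b) y) y) - pd a (pd b q) y := by
      intro a b
      have c1 : ∀ l, ContDiff ℝ ∞ (fun y => pd l (fun w => pd l (fun u => v u b) w) y) :=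
        fun l => cd_comp (hcA l) b
      have c2 : ∀ l, ContDiff ℝ ∞ (fun y => pd l (fun w => v w l * v w b) y) :=
        fun l => cd_comp (hcB l) b
      rw [pd_congr' isOpen_ball (fun w hw => hNe w hw b) a y hy8,
        pd_sub ((cd_sum c1).sub (cd_sum c2)) (cd_pd hq b), pd_sub (cd_sum c1) (cd_sum c2),
        pd_sum c1, pd_sum c2]
    unfold cur
    rw [e i j, e j i, pd_comm hq i j, Finset.sum_sub_distrib, Finset.sum_sub_distrib]
    ring
  intro x hx i
  have hx2 : x ∈ ball (0 : V) 2 := ball_subset_ball (by norm_num) hx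
  have hx8 : x ∈ ball (0 : V) 8 := ball_subset_ball (by norm_num) hx
  have hT := TT_lin hG hcA hcB hcur x i
  rw [hT, Finset.sum_congr rfl fun l _ => hH1 l x hx2 i, Finset.sum_congr rfl fun l _ => hH2 l x hx2 i,
    hadv x hx8 i]
  have hlap : lap (fun y => v y i) x = ∑ l, pd l (fun w => pd l (fun u => v u i) w) x := rfl
  have hpdP : pd i P x = ∑ l, pd i (pd l (KK g (fun y => ∑ j, pd j (fun w => chi w * (v w l * v w j)) y))) x := by
    rw [hP]
    apply pd_sum
    intro l
    exact cd_pd (hG.smooth _ (T4_sum fun j => T4_pd (T4_chi ((cd_comp hv l).mul (cd_comp hv j))) j)) l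
  rw [hlap, hpdP]
  simp only [Finset.sum_add_distrib]
  have hb1 : ∀ l, |H1 l x i| ≤ C1 * √(B2 0 4 v) := fun l =>
    (hH1b l x hx i).trans (mul_le_mul_of_nonneg_left (Real.sqrt_le_sqrt (A2_f hv l)) hC1.le)
  have hb2 : ∀ l, |H2 l x i| ≤ C1 * √(L4 0 4 v) := fun l =>
    (hH2b l x hx i).trans (mul_le_mul_of_nonneg_left (Real.sqrt_le_sqrt (A2_k hv l)) hC1.le)
  have hb3 : ∀ l, _ := fun l => hharm v hv hd l i x hx
  have hs1 : |∑ l, H1 l x i| ≤ 3 * (C1 * √(B2 0 4 v)) := by
    refine (Finset.abs_sum_le_sum_abs _ _).trans ((Finset.sum_le_sum fun l _ => hb1 l).trans (le_of_eq ?_))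
    simp
  have hs2 : |∑ l, H2 l x i| ≤ 3 * (C1 * √(L4 0 4 v)) := by
    refine (Finset.abs_sum_le_sum_abs _ _).trans ((Finset.sum_le_sum fun l _ => hb2 l).trans (le_of_eq ?_))
    simp
  have hs3 : |∑ l, pd i (pd l (KK g (fun y => ∑ j, pd j (fun w => chi w * pd l (fun u => v u j) w) y))) x| ≤
      3 * (K * √(B2 0 4 v)) := by
    refine (Finset.abs_sum_le_sum_abs _ _).trans ((Finset.sum_le_sum fun l _ => hb3 l).trans (le_of_eq ?_))
    simp
  have hsB := Real.sqrt_nonneg (B2 0 4 v)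
  have hsL := Real.sqrt_nonneg (L4 0 4 v)
  have hCn := abs_nonneg C
  rw [abs_le] at hs1 hs2 hs3 ⊢
  have f1 : (3 * K + 3 * C1 + 81 * |C| + 1) * (√(B2 0 4 v) + √(L4 0 4 v)) =
      3 * (K * √(B2 0 4 v)) + 3 * (C1 * √(B2 0 4 v)) + 3 * (C1 * √(L4 0 4 v)) +
      (3 * K * √(L4 0 4 v) + (81 * |C| + 1) * (√(B2 0 4 v) + √(L4 0 4 v))) := by ring
  have f2 : 0 ≤ 3 * K * √(L4 0 4 v) + (81 * |C| + 1) * (√(B2 0 4 v) + √(L4 0 4 v)) := by positivity
  rw [f1]
  constructor <;> linarith [hs1.1, hs1.2, hs2.1, hs2.2, hs3.1, hs3.2]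

end Pool.Agent.W240.ME
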